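import Pool.Agent.W192.CM.Parts

/-! # Project CM (helper192), task CM-GAUSS (helper311): Gauss sums -/

set_option autoImplicit false

namespace Pool.Agent.W311.CM

open Pool.Agent.W192.CM

section gen

variable {A : Type} [CommRing A] [Fintype A]

theorem shift (χ : MulChar A ℂ) (ψ : AddChar A ℂ)
    (hz : ∀ b : A, ¬ IsUnit b → gaussSum χ (AddChar.mulShift ψ b) = 0) (b : A) :
    gaussSum χ (AddChar.mulShift ψ b) = χ⁻¹ b * gaussSum χ ψ := by
  by_cases hb : IsUnit b
  · obtain ⟨u, rfl⟩ := hb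
    exact gaussSum_mulShift_eq χ ψ u
  · rw [hz b hb, MulChar.map_nonunit _ hb, zero_mul]

theorem norm_sq (χ : MulChar A ℂ) (ψ : AddChar A ℂ) (hψ : ψ.IsPrimitive)
    (hz : ∀ b : A, ¬ IsUnit b → gaussSum χ (AddChar.mulShift ψ b) = 0) :
    star (gaussSum χ ψ) * gaussSum χ ψ = (Fintype.card A : ℂ) := by
  classical
  have key : ∑ b : A, star (gaussSum χ (AddChar.mulShift ψ b)) *
      gaussSum χ (AddChar.mulShift ψ b) = (Fintype.card A : ℂ) * ∑ x : A, χ⁻¹ x * χ x := by
    calc ∑ b : A, star (gaussSum χ (AddChar.mulShift ψ b)) * gaussSum χ (AddChar.mulShift ψ b)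
        = ∑ b : A, ∑ y : A, ∑ x : A, (χ⁻¹ y * χ x) * ψ (b * (x - y)) := by
          refine Finset.sum_congr rfl fun b _ => ?_
          simp only [gaussSum, AddChar.mulShift_apply]
          rw [star_sum, Finset.sum_mul_sum]
          refine Finset.sum_congr rfl fun y _ => Finset.sum_congr rfl fun x _ => ?_
          rw [star_mul, MulChar.star_apply', mul_sub, sub_eq_add_neg, AddChar.map_add_eq_mul,
            AddChar.map_neg_eq_conj, starRingEnd_apply]
          ring
      _ = ∑ y : A, ∑ x : A, (χ⁻¹ y * χ x) * ∑ b : A, ψ (b * (x - y)) := by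
          rw [Finset.sum_comm]
          refine Finset.sum_congr rfl fun y _ => ?_
          rw [Finset.sum_comm]
          refine Finset.sum_congr rfl fun x _ => ?_
          rw [Finset.mul_sum]
      _ = ∑ y : A, ∑ x : A, (if x = y then (Fintype.card A : ℂ) * (χ⁻¹ y * χ x) else 0) := by
          refine Finset.sum_congr rfl fun y _ => Finset.sum_congr rfl fun x _ => ?_
          rw [AddChar.sum_mulShift _ hψ]
          by_cases h : x = y
          · rw [if_pos h, if_pos (sub_eq_zero.2 h)]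
            ring
          · rw [if_neg h, if_neg (fun h' => h (sub_eq_zero.1 h'))]
            simp
      _ = (Fintype.card A : ℂ) * ∑ x : A, χ⁻¹ x * χ x := by
          rw [Finset.mul_sum]
          refine Finset.sum_congr rfl fun y _ => ?_
          rw [Finset.sum_ite_eq' Finset.univ y]
          simp
  have key2 : ∑ b : A, star (gaussSum χ (AddChar.mulShift ψ b)) *
      gaussSum χ (AddChar.mulShift ψ b) =
        (star (gaussSum χ ψ) * gaussSum χ ψ) * ∑ x : A, χ⁻¹ x * χ x := by
    rw [Finset.mul_sum]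
    refine Finset.sum_congr rfl fun b _ => ?_
    rw [shift χ ψ hz b, star_mul, MulChar.star_apply', inv_inv]
    ring
  have hU : ∑ x : A, χ⁻¹ x * χ x ≠ 0 := by
    have h1 : ∀ x : A, χ⁻¹ x * χ x = (1 : MulChar A ℂ) x := by
      intro x
      rw [← MulChar.inv_mul χ, MulChar.mul_apply]
    rw [Finset.sum_congr rfl fun x _ => h1 x, MulChar.sum_one_eq_card_units]
    exact_mod_cast Fintype.card_ne_zero
  rw [key] at key2
  exact (mul_right_cancel₀ hU key2).symm

end gen

lemma ez_add (ω z w : ℂ) : ez ω (z + w) = ez ω z * ez ω w := by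
  unfold ez
  rw [← Complex.exp_add]
  congr 1
  rw [Complex.add_im, add_div]
  push_cast
  ring

lemma ez_zero (ω : ℂ) : ez ω 0 = 1 := by simp [ez]

lemma ez_one_iff {ω : ℂ} (_hω : 0 < ω.im) (z : ℂ) : ez ω z = 1 ↔ ∃ n : ℤ, z.im / ω.im = n := by
  unfold ez
  rw [Complex.exp_eq_one_iff]
  have h2 : (2 * (Real.pi : ℂ) * Complex.I) ≠ 0 := Complex.two_pi_I_ne_zero
  constructor
  · rintro ⟨n, hn⟩
    refine ⟨n, ?_⟩
    rw [mul_comm (n : ℂ)] at hn
    have := mul_left_cancel₀ h2 hn
    exact_mod_cast this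
  · rintro ⟨n, hn⟩
    refine ⟨n, ?_⟩
    rw [hn]
    push_cast
    ring

lemma ez_R {R : Subring ℂ} {ω : ℂ} (h : CMRing R ω) (α : R) : ez ω (α : ℂ) = 1 := by
  obtain ⟨x, y, hxy⟩ := (h.mem α).1 α.2
  rw [ez_one_iff h.im]
  refine ⟨y, ?_⟩
  rw [hxy]
  have := h.im.ne'
  simp
  field_simp

theorem c_gauss (h : C_BASIC) : C_GAUSS := by
  intro R ω hR κ _ hκ χ hχ
  obtain ⟨-, -, -, -, hcard⟩ := h R ω hR
  have hN := (hcard κ hκ).2
  have : IsPrincipalIdealRing R := hR.pid
  let _ : Fintype (Aq R κ) := Fintype.ofFinite _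
  have hκc : (κ : ℂ) ≠ 0 := by
    intro h0
    exact hκ (Subtype.ext h0)
  obtain ⟨e, he⟩ : ∃ e : Aq R κ → ℂ, ∀ x, e x = ez ω (((Quotient.out x : R) : ℂ) / (κ : ℂ)) :=
    ⟨_, fun _ => rfl⟩
  have hout : ∀ x : Aq R κ, Ideal.Quotient.mk (Ideal.span {κ}) (Quotient.out x : R) = x :=
    fun x => Quotient.out_eq' x
  have hwd : ∀ α β : R, Ideal.Quotient.mk (Ideal.span {κ}) α = Ideal.Quotient.mk (Ideal.span {κ}) β →
      ∀ γ : R, ez ω ((α : ℂ) * γ / κ) = ez ω ((β : ℂ) * γ / κ) := by
    intro α β hab γ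
    rw [Ideal.Quotient.eq, Ideal.mem_span_singleton] at hab
    obtain ⟨t, ht⟩ := hab
    have h1 : (α : ℂ) = β + κ * t := by
      have := congrArg (fun x : R => (x : ℂ)) ht
      simp only [AddSubgroupClass.coe_sub, Subring.coe_mul] at this
      linear_combination this
    have h2 : (α : ℂ) * γ / κ = (β : ℂ) * γ / κ + ((t * γ : R) : ℂ) := by
      rw [h1, Subring.coe_mul]
      field_simp
    rw [h2, ez_add, ez_R hR, mul_one]
  have hemk : ∀ α : R, e (Ideal.Quotient.mk (Ideal.span {κ}) α) = ez ω ((α : ℂ) / κ) := by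
    intro α
    rw [he]
    have := hwd _ α (hout (Ideal.Quotient.mk (Ideal.span {κ}) α)) 1
    simpa using this
  let ψ : AddChar (Aq R κ) ℂ :=
    { toFun := e
      map_zero_eq_one' := by
        have := hemk 0
        rw [map_zero] at this
        rw [this]
        simp [ez_zero]
      map_add_eq_mul' := by
        intro x y
        obtain ⟨α, rfl⟩ := Ideal.Quotient.mk_surjective x
        obtain ⟨β, rfl⟩ := Ideal.Quotient.mk_surjective y
        rw [← map_add, hemk, hemk, hemk, ← ez_add, Subring.coe_add, add_div] }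
  have hψ : ∀ α : R, ψ (Ideal.Quotient.mk (Ideal.span {κ}) α) = ez ω ((α : ℂ) / κ) := hemk
  have hψe : ∀ x, ψ x = ez ω (((Quotient.out x : R) : ℂ) / (κ : ℂ)) := he
  -- primitivity
  have hprim : ψ.IsPrimitive := by
    intro a ha h1
    apply ha
    obtain ⟨β, rfl⟩ := Ideal.Quotient.mk_surjective a
    have h2 : ∀ x : R, ez ω (((β : ℂ) / κ) * x) = 1 := by
      intro x
      have h3 := DFunLike.congr_fun h1 (Ideal.Quotient.mk (Ideal.span {κ}) x)
      rw [AddChar.mulShift_apply, ← map_mul, hψ, AddChar.one_apply, Subring.coe_mul] at h3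
      rw [← h3]
      congr 1
      ring
    set z : ℂ := (β : ℂ) / κ with hz
    obtain ⟨v, hv⟩ := (ez_one_iff hR.im _).1 (h2 1)
    have hωR : ω ∈ R := (hR.mem ω).2 ⟨0, 1, by simp⟩
    obtain ⟨n', hn'⟩ := (ez_one_iff hR.im _).1 (h2 ⟨ω, hωR⟩)
    obtain ⟨a', b', hab'⟩ := (hR.mem (ω * ω)).1 (R.mul_mem hωR hωR)
    have him := hR.im.ne'
    have e1 : z.im = v * ω.im := by
      rw [Subring.coe_one, mul_one] at hv
      field_simp at hv
      linarith
    set u : ℝ := z.re - v * ω.re with hu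
    have e2 : z = (u : ℂ) + v * ω := by
      apply Complex.ext
      · simp [hu]
      · simp [e1]
    have e3 : z * ω = ((v * a' : ℤ) : ℂ) + ((u + v * b' : ℝ) : ℂ) * ω := by
      rw [e2]
      push_cast
      linear_combination (v : ℂ) * hab'
    have e4 : u + v * b' = n' := by
      rw [← hn']
      change u + v * b' = (z * ω).im / ω.im
      have e6 : (z * ω).im = (u + v * b') * ω.im := by
        rw [e3]
        simp only [Complex.add_im, Complex.intCast_im, Complex.im_ofReal_mul, zero_add]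
      rw [e6]
      field_simp
    have e5 : z ∈ R := by
      rw [hR.mem]
      refine ⟨n' - v * b', v, ?_⟩
      rw [e2]
      have : u = n' - v * b' := by linarith
      rw [this]
      push_cast
      ring
    rw [Ideal.Quotient.eq_zero_iff_mem, Ideal.mem_span_singleton]
    refine ⟨⟨z, e5⟩, ?_⟩
    apply Subtype.ext
    rw [Subring.coe_mul]
    change (β : ℂ) = κ * z
    rw [hz]
    field_simp
  -- vanishing
  have hzero : ∀ b : Aq R κ, ¬ IsUnit b → gaussSum χ (AddChar.mulShift ψ b) = 0 := by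
    intro b hb
    obtain ⟨β, rfl⟩ := Ideal.Quotient.mk_surjective b
    obtain ⟨g, hg⟩ := (IsPrincipalIdealRing.principal (Ideal.span {β, κ})).principal
    rw [Ideal.submodule_span_eq] at hg
    have hgβ : g ∣ β := by
      rw [← Ideal.mem_span_singleton, ← hg]
      exact Ideal.subset_span (by simp)
    have hgκ : g ∣ κ := by
      rw [← Ideal.mem_span_singleton, ← hg]
      exact Ideal.subset_span (by simp)
    have hgu : ¬ IsUnit g := by
      intro hu
      apply hb
      have h1 : (1 : R) ∈ Ideal.span {β, κ} := by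
        rw [hg, Ideal.mem_span_singleton]
        exact hu.dvd
      rw [Ideal.mem_span_pair] at h1
      obtain ⟨s, t, hst⟩ := h1
      have h2 : Ideal.Quotient.mk (Ideal.span {κ}) β * Ideal.Quotient.mk (Ideal.span {κ}) s = 1 := by
        rw [← map_mul, ← map_one (Ideal.Quotient.mk (Ideal.span {κ})), Ideal.Quotient.eq,
          Ideal.mem_span_singleton]
        exact ⟨-t, by rw [← hst]; ring⟩
      exact IsUnit.of_mul_eq_one _ h2
    obtain ⟨κ', hκ'⟩ := hgκ
    obtain ⟨α, hα, hα1, hα2⟩ := hχ κ' ⟨g, by rw [hκ']; ring⟩ (by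
      rintro ⟨t, ht⟩
      apply hgu
      have hκ'0 : κ' ≠ 0 := by
        rintro rfl
        exact hκ (by rw [hκ', mul_zero])
      have : κ' * (g * t) = κ' * 1 := by
        rw [mul_one]
        conv_rhs => rw [ht, hκ']
        ring
      exact IsUnit.of_mul_eq_one _ (mul_left_cancel₀ hκ'0 this))
    have hαu : IsUnit (Ideal.Quotient.mk (Ideal.span {κ}) α) := by
      obtain ⟨s, t, hst⟩ := hα
      have h2 : Ideal.Quotient.mk (Ideal.span {κ}) α * Ideal.Quotient.mk (Ideal.span {κ}) s = 1 := by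
        rw [← map_mul, ← map_one (Ideal.Quotient.mk (Ideal.span {κ})), Ideal.Quotient.eq,
          Ideal.mem_span_singleton]
        exact ⟨-t, by rw [← hst]; ring⟩
      exact IsUnit.of_mul_eq_one _ h2
    obtain ⟨w, hw⟩ := hαu
    have h3 := gaussSum_mulShift χ (AddChar.mulShift ψ (Ideal.Quotient.mk (Ideal.span {κ}) β)) w
    have h4 : AddChar.mulShift (AddChar.mulShift ψ (Ideal.Quotient.mk (Ideal.span {κ}) β)) w =
        AddChar.mulShift ψ (Ideal.Quotient.mk (Ideal.span {κ}) β) := by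
      ext x
      rw [AddChar.mulShift_apply, AddChar.mulShift_apply, AddChar.mulShift_apply, hw, ← mul_assoc]
      congr 2
      rw [← map_mul, Ideal.Quotient.eq, Ideal.mem_span_singleton]
      obtain ⟨c1, hc1⟩ := hα1
      obtain ⟨c2, hc2⟩ := hgβ
      refine ⟨c1 * c2, ?_⟩
      have : α = 1 + κ' * c1 := by linear_combination hc1
      rw [this, hc2, hκ']
      ring
    rw [h4] at h3
    have h5 : χ (w : Aq R κ) ≠ 1 := by
      rw [hw]
      exact hα2
    have h6 : (χ (w : Aq R κ) - 1) *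
        gaussSum χ (AddChar.mulShift ψ (Ideal.Quotient.mk (Ideal.span {κ}) β)) = 0 := by
      linear_combination h3
    exact (mul_eq_zero.1 h6).resolve_left (sub_ne_zero.2 h5)
  have hgs : gs ω κ χ = gaussSum χ ψ := by
    unfold gs gaussSum
    rw [finsum_eq_sum_of_fintype]
    refine Finset.sum_congr rfl fun x _ => ?_
    rw [hψe]
  constructor
  · rw [hgs]
    have h1 := norm_sq χ ψ hprim hzero
    have h2 : ‖gaussSum χ ψ‖ ^ 2 = ‖(κ : ℂ)‖ ^ 2 := by
      rw [← Complex.normSq_eq_norm_sq (κ : ℂ), ← hN, Nat.card_eq_fintype_card]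
      have h3 : star (gaussSum χ ψ) * gaussSum χ ψ = ((‖gaussSum χ ψ‖ ^ 2 : ℝ) : ℂ) := by
        rw [← starRingEnd_apply, mul_comm, Complex.mul_conj, Complex.normSq_eq_norm_sq]
      rw [h3] at h1
      exact_mod_cast h1
    exact (pow_left_inj₀ (norm_nonneg _) (norm_nonneg _) two_ne_zero).1 h2
  · intro β
    have h1 := shift χ ψ hzero (Ideal.Quotient.mk (Ideal.span {κ}) β)
    rw [hgs]
    have h2 : (starRingEnd ℂ) (ev χ β) = χ⁻¹ (Ideal.Quotient.mk (Ideal.span {κ}) β) := by
      unfold ev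
      rw [starRingEnd_apply, MulChar.star_apply']
    rw [h2, ← h1, finsum_eq_sum_of_fintype]
    unfold gaussSum
    refine Finset.sum_congr rfl fun x _ => ?_
    rw [AddChar.mulShift_apply]
    congr 1
    have h3 : Ideal.Quotient.mk (Ideal.span {κ}) β * x =
        Ideal.Quotient.mk (Ideal.span {κ}) ((Quotient.out x : R) * β) := by
      rw [map_mul, hout, mul_comm]
    rw [h3, hψ, Subring.coe_mul]

end Pool.Agent.W311.CM
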